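import Pool.Agent.Helper54.GA.Stmts
import Pool.Agent.Helper8.RU.R9

/-!
# Neighbouring orbits of the maps `3x - r`, block G3b: no coincidences (MP_fd8838_nt)
-/

set_option autoImplicit false

namespace Pool.Agent.Helper77.GA

open Pool.Agent.Helper68.Moeller Pool.Agent.Helper8 Pool.Agent.Helper8.CO Pool.Agent.Helper8.RU
  Pool.Agent.Helper8.ND Pool.Agent.Helper54.GA Filter Topology

/-- the point after `k` steps, up to the noise -/
theorem abs_iter77 {ρ : ℤ} (hρ : Odd ρ) (k : ℕ) (x : ℤ) :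
    |2 ^ k * (T 2 3 (fun _ => ρ))^[k] x - 3 ^ cnt 2 3 (fun _ => ρ) k x * x| ≤
      |ρ| * (3 ^ cnt 2 3 (fun _ => ρ) k x * 2 ^ k) := by
  induction k generalizing x with
  | zero =>
    simp [cnt]
  | succ k ih =>
    have h1 := ih (T 2 3 (fun _ => ρ) x)
    obtain ⟨s, hs⟩ : ∃ s, s = cnt 2 3 (fun _ => ρ) k (T 2 3 (fun _ => ρ) x) := ⟨_, rfl⟩
    obtain ⟨a, ha⟩ : ∃ a, a = (T 2 3 (fun _ => ρ))^[k] (T 2 3 (fun _ => ρ) x) := ⟨_, rfl⟩
    rw [Function.iterate_succ_apply, cnt, ← hs, ← ha]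
    rw [← hs, ← ha] at h1
    have h3 : (0 : ℤ) ≤ |ρ| := abs_nonneg _
    have h4 : (1 : ℤ) ≤ 2 ^ k := one_le_pow₀ (by norm_num)
    have h5 : (1 : ℤ) ≤ 3 ^ s := one_le_pow₀ (by norm_num)
    by_cases he : Even x
    · have h2 := two_T_even (ρ := ρ) he
      have h6 : ((2 : ℕ) : ℤ) ∣ x := by exact_mod_cast he.two_dvd
      rw [if_pos h6, zero_add]
      have h7 : (2 : ℤ) ^ (k + 1) * a - 3 ^ s * x =
          2 * (2 ^ k * a - 3 ^ s * T 2 3 (fun _ => ρ) x) := by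
        rw [pow_succ]
        linear_combination (3 : ℤ) ^ s * h2
      rw [h7, abs_mul, abs_of_pos (by norm_num : (0 : ℤ) < 2), pow_succ]
      calc 2 * |2 ^ k * a - 3 ^ s * T 2 3 (fun _ => ρ) x|
          ≤ 2 * (|ρ| * (3 ^ s * 2 ^ k)) := by linarith
        _ = |ρ| * (3 ^ s * (2 ^ k * 2)) := by ring
    · have h2 := two_T_odd hρ he
      have h6 : ¬ ((2 : ℕ) : ℤ) ∣ x := fun h => he (even_iff_two_dvd.2 (by exact_mod_cast h))
      rw [if_neg h6, add_comm 1 s]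
      have h7 : (2 : ℤ) ^ (k + 1) * a - 3 ^ (s + 1) * x =
          2 * (2 ^ k * a - 3 ^ s * T 2 3 (fun _ => ρ) x) - 3 ^ s * ρ := by
        rw [pow_succ, pow_succ]
        linear_combination (3 : ℤ) ^ s * h2
      rw [h7]
      refine (abs_sub _ _).trans ?_
      rw [abs_mul, abs_mul, abs_of_pos (by norm_num : (0 : ℤ) < 2),
        abs_of_nonneg (by linarith : (0 : ℤ) ≤ 3 ^ s), pow_succ, pow_succ]
      have h8 : (3 : ℤ) ^ s * |ρ| ≤ 3 ^ s * |ρ| * 2 ^ k :=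
        le_mul_of_one_le_right (mul_nonneg (by linarith) h3) h4
      have h9 : (0 : ℤ) ≤ 3 ^ s * |ρ| * 2 ^ k := by positivity
      calc 2 * |2 ^ k * a - 3 ^ s * T 2 3 (fun _ => ρ) x| + 3 ^ s * |ρ|
          ≤ 2 * (|ρ| * (3 ^ s * 2 ^ k)) + 3 ^ s * |ρ| * 2 ^ k := by linarith
        _ ≤ |ρ| * (3 ^ s * 3 * (2 ^ k * 2)) := by linarith

/-- the comparison of two orbits with different numbers of odd points -/
theorem lt_absurd77 {R n n' A : ℤ} {s s' k : ℕ} (hs : s' < s) (hA : |A - 3 ^ s * n| ≤ R * (3 ^ s * 2 ^ k))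
    (hA' : |A - 3 ^ s' * n'| ≤ R * (3 ^ s' * 2 ^ k)) (hn : R * 2 ^ k ≤ n)
    (h : n' + R * 2 ^ k < 3 * (n - R * 2 ^ k)) : False := by
  have h1 := (abs_le.1 hA).1
  have h2 := (abs_le.1 hA').2
  obtain ⟨j, rfl⟩ : ∃ j, s = s' + 1 + j := ⟨s - (s' + 1), by omega⟩
  have h3 : (0 : ℤ) < 3 ^ s' := by positivity
  have h4 : (1 : ℤ) ≤ 3 ^ j := one_le_pow₀ (by norm_num)
  have h5 : (3 : ℤ) ^ (s' + 1 + j) = 3 ^ s' * 3 * 3 ^ j := by
    rw [pow_add, pow_succ]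
  have h6 : (3 : ℤ) ^ s' * (3 * (n - R * 2 ^ k)) ≤ 3 ^ (s' + 1 + j) * (n - R * 2 ^ k) := by
    rw [h5]
    have h7 : 0 ≤ 3 ^ s' * 3 * (n - R * 2 ^ k) := by
      have : 0 ≤ n - R * 2 ^ k := by linarith
      positivity
    nlinarith [mul_le_mul_of_nonneg_left h4 h7]
  have h7 : (3 : ℤ) ^ s' * (n' + R * 2 ^ k) < 3 ^ s' * (3 * (n - R * 2 ^ k)) :=
    mul_lt_mul_of_pos_left h h3
  nlinarith

/-- **BLOCK G3b.** -/
theorem g3b : StmtG3b := by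
  intro ρ hρ
  have h1 : Tendsto (fun k : ℕ => (7 / 4 : ℝ) ^ k) atTop atTop :=
    tendsto_pow_atTop_atTop_of_one_lt (by norm_num)
  obtain ⟨k₀, hk₀⟩ := eventually_atTop.1 (h1.eventually_gt_atTop (4 * |(ρ : ℝ)|))
  refine ⟨k₀, fun k n hk hn heq => ⟨heq, ?_⟩⟩
  rw [add_zero]
  have h2 := hk₀ k hk
  have h3 : 4 * |(ρ : ℝ)| * 2 ^ k < (n : ℝ) := by
    refine lt_of_lt_of_le ?_ hn
    have h4 : (7 / 2 : ℝ) ^ k = (7 / 4) ^ k * 2 ^ k := by
      rw [← mul_pow]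
      norm_num
    rw [h4]
    exact mul_lt_mul_of_pos_right h2 (by positivity)
  have h5 : 4 * |ρ| * 2 ^ k < n := by exact_mod_cast h3
  have h6 : (0 : ℤ) ≤ |ρ| := abs_nonneg _
  have h7 : |ρ| ≤ |ρ| * 2 ^ k := le_mul_of_one_le_right h6 (one_le_pow₀ (by norm_num))
  have h8 := abs_le.1 (le_refl |ρ|)
  have ha := abs_iter77 hρ k n
  have ha' := abs_iter77 hρ k (n + ρ)
  rw [← heq] at ha'
  rcases lt_trichotomy (cnt 2 3 (fun _ => ρ) k n) (cnt 2 3 (fun _ => ρ) k (n + ρ)) with h | h | h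
  · exact (lt_absurd77 h ha' ha (by linarith) (by linarith)).elim
  · exact h
  · exact (lt_absurd77 h ha ha' (by linarith) (by linarith)).elim

end Pool.Agent.Helper77.GA
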