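import Pool.Agent.Helper54.GA.Stmts3

/-!
# A maximal inequality along the multiples of `ρ` (block M1, MP_fd8838_nt)
-/

set_option autoImplicit false

namespace Pool.Agent.Helper77.GA

open Pool.Agent.Helper54.GA

/-- The number of the integers at a distance at most `w` from `n₁` in a finite set. -/
private theorem card77 (F : Finset ℤ) (n₁ : ℤ) {w : ℝ} (hw : 1 ≤ w) (h : ∀ n ∈ F, |((n - n₁ : ℤ) : ℝ)| ≤ w) :
    (F.card : ℝ) ≤ 3 * w := by
  have h1 : F.card ≤ (Finset.Icc (-⌊w⌋) ⌊w⌋ : Finset ℤ).card := by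
    refine Finset.card_le_card_of_injOn (fun n => n - n₁) (fun n hn => ?_) (fun a _ b _ hab => ?_)
    · obtain ⟨h3, h4⟩ := abs_le.1 (h n hn)
      rw [Finset.mem_coe, Finset.mem_Icc]
      refine ⟨?_, Int.le_floor.2 h4⟩
      have h5 : -(n - n₁) ≤ ⌊w⌋ := Int.le_floor.2 (by push_cast at h3 ⊢; linarith)
      linarith
    · simpa using hab
  rw [Int.card_Icc] at h1
  have h3 : (0 : ℤ) ≤ ⌊w⌋ := Int.floor_nonneg.2 (by linarith)
  have h4 : ((⌊w⌋ + 1 - -⌊w⌋).toNat : ℤ) = 2 * ⌊w⌋ + 1 := by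
    rw [Int.toNat_of_nonneg (by omega)]
    ring
  have h5 : ((⌊w⌋ + 1 - -⌊w⌋).toNat : ℝ) = 2 * (⌊w⌋ : ℝ) + 1 := by exact_mod_cast h4
  have h6 : (F.card : ℝ) ≤ ((⌊w⌋ + 1 - -⌊w⌋).toNat : ℝ) := by exact_mod_cast h1
  have h7 := Int.floor_le w
  linarith

theorem m1 : StmtM1 := by
  classical
  intro ρ ε hρ hε F A t h
  obtain ⟨N, hN⟩ : ∃ N : ℕ, F.card = N := ⟨_, rfl⟩
  induction N using Nat.strong_induction_on generalizing F A with
  | _ N ih =>
    rcases F.eq_empty_or_nonempty with hF | hF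
    · rw [hF, Finset.card_empty, Nat.cast_zero]
      positivity
    · obtain ⟨n₁, hn₁, hmax⟩ := F.exists_max_image t hF
      obtain ⟨ht1, hA1⟩ := h n₁ hn₁
      obtain ⟨F1, hF1⟩ : ∃ F1 : Finset ℤ, F1 = F.filter (fun n => ρ ∣ n - n₁ ∧ |((n - n₁ : ℤ) : ℝ)| ≤ 2 * t n₁) := ⟨_, rfl⟩
      obtain ⟨F2, hF2⟩ : ∃ F2 : Finset ℤ, F2 = F.filter (fun n => ¬ (ρ ∣ n - n₁ ∧ |((n - n₁ : ℤ) : ℝ)| ≤ 2 * t n₁)) :=
        ⟨_, rfl⟩
      obtain ⟨A1, hA1'⟩ : ∃ A1 : Finset ℤ, A1 = A.filter (fun k => ρ ∣ k - n₁ ∧ |((k - n₁ : ℤ) : ℝ)| ≤ t n₁) := ⟨_, rfl⟩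
      obtain ⟨A2, hA2'⟩ : ∃ A2 : Finset ℤ, A2 = A.filter (fun k => ¬ (ρ ∣ k - n₁ ∧ |((k - n₁ : ℤ) : ℝ)| ≤ t n₁)) :=
        ⟨_, rfl⟩
      have hFc : F1.card + F2.card = F.card := by
        rw [hF1, hF2]
        exact Finset.card_filter_add_card_filter_not _
      have hAc : A1.card + A2.card = A.card := by
        rw [hA1', hA2']
        exact Finset.card_filter_add_card_filter_not _
      have hF1c : (F1.card : ℝ) ≤ 6 * t n₁ := by
        have h1 := card77 F1 n₁ (by linarith : 1 ≤ 2 * t n₁) (fun n hn => by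
          rw [hF1, Finset.mem_filter] at hn
          exact hn.2.2)
        linarith
      have hA1c : ε * t n₁ < (A1.card : ℝ) := by
        refine lt_of_lt_of_eq hA1 ?_
        have h1 : {k : ℤ | k ∈ A ∧ ρ ∣ k - n₁ ∧ |((k - n₁ : ℤ) : ℝ)| ≤ t n₁} = (A1 : Set ℤ) := by
          ext k
          rw [hA1', Finset.coe_filter]
        rw [h1, Set.ncard_coe_finset]
      have hn₁F : n₁ ∈ F1 := by
        rw [hF1, Finset.mem_filter]
        refine ⟨hn₁, by rw [sub_self]; exact dvd_zero _, ?_⟩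
        rw [sub_self, Int.cast_zero, abs_zero]
        linarith
      have hlt : F2.card < N := by
        have h1 : 0 < F1.card := Finset.card_pos.2 ⟨n₁, hn₁F⟩
        omega
      have hind := ih F2.card hlt F2 A2 (fun n hn => by
        rw [hF2, Finset.mem_filter] at hn
        obtain ⟨hnF, hnn⟩ := hn
        obtain ⟨h1, h2⟩ := h n hnF
        refine ⟨h1, ?_⟩
        have h3 : {k : ℤ | k ∈ A2 ∧ ρ ∣ k - n ∧ |((k - n : ℤ) : ℝ)| ≤ t n} =
            {k : ℤ | k ∈ A ∧ ρ ∣ k - n ∧ |((k - n : ℤ) : ℝ)| ≤ t n} := by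
          ext k
          rw [hA2', Set.mem_ofPred_eq, Set.mem_ofPred_eq, Finset.mem_filter]
          constructor
          · rintro ⟨⟨h4, -⟩, h5, h6⟩
            exact ⟨h4, h5, h6⟩
          · rintro ⟨h4, h5, h6⟩
            refine ⟨⟨h4, ?_⟩, h5, h6⟩
            rintro ⟨h7, h8⟩
            apply hnn
            refine ⟨?_, ?_⟩
            · have h9 := Int.dvd_sub h7 h5
              have e : k - n₁ - (k - n) = n - n₁ := by ring
              rwa [e] at h9
            · have h9 := hmax n hnF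
              have e : ((n - n₁ : ℤ) : ℝ) = ((k - n₁ : ℤ) : ℝ) - ((k - n : ℤ) : ℝ) := by
                push_cast
                ring
              rw [e]
              refine (abs_sub _ _).trans ?_
              linarith
        rw [h3]
        exact h2) rfl
      have h8 : (F.card : ℝ) = F1.card + F2.card := by exact_mod_cast hFc.symm
      have h9 : (A.card : ℝ) = A1.card + A2.card := by exact_mod_cast hAc.symm
      have h10 : 6 * t n₁ ≤ 6 / ε * (A1.card : ℝ) := by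
        have h11 : 6 / ε * (ε * t n₁) ≤ 6 / ε * (A1.card : ℝ) := mul_le_mul_of_nonneg_left hA1c.le (by positivity)
        have h12 : 6 / ε * (ε * t n₁) = 6 * t n₁ := by field_simp
        linarith
      rw [h8, h9, mul_add]
      linarith

end Pool.Agent.Helper77.GA
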